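import Pool.Agent.H95.GWNil.Coframe

/-!
# Forms with given coefficients
-/

open scoped ContDiff
open MeasureTheory

namespace Pool.Agent.H95.GWNil

open Pool.Agent.H64.GW.Nil

/-- The constant one-form `dxₐ`. -/
noncomputable def dx1 (a : Fin 6) : G [⋀^Fin 1]→L[ℝ] ℂ :=
  ContinuousAlternatingMap.ofSubsingleton ℝ G ℂ (0 : Fin 1)
    (Complex.ofRealCLM.comp (ContinuousLinearMap.proj (R := ℝ) (φ := fun _ : Fin 6 => ℝ) a))

lemma dx1_apply (a : Fin 6) (v : Fin 1 → G) : dx1 a v = (v 0 a : ℂ) := rfl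

/-- The constant two-form `dxₐ ∧ dx_b`. -/
noncomputable def dx2 (a b : Fin 6) : G [⋀^Fin 2]→L[ℝ] ℂ :=
  ContinuousAlternatingMap.alternatizeUncurryFin
    ((ContinuousLinearMap.proj (R := ℝ) (φ := fun _ : Fin 6 => ℝ) a).smulRight (dx1 b))

lemma dx2_apply (a b : Fin 6) (v : Fin 2 → G) :
    dx2 a b v = (v 0 a : ℂ) * (v 1 b : ℂ) - (v 1 a : ℂ) * (v 0 b : ℂ) := by
  unfold dx2
  rw [ContinuousAlternatingMap.alternatizeUncurryFin_apply]
  have h := Fin.sum_univ_two (fun i : Fin 2 => (-1 : ℤ) ^ (i : ℕ) •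
    (((ContinuousLinearMap.proj (R := ℝ) (φ := fun _ : Fin 6 => ℝ) a).smulRight (dx1 b)) (v i))
      (i.removeNth v))
  refine h.trans ?_
  simp [dx1_apply, Fin.removeNth, Fin.tail]
  ring

lemma contDiff_smul_const {k : ℕ} {f : G → ℂ} (hf : ContDiff ℝ ∞ f) (α : G [⋀^Fin k]→L[ℝ] ℂ) :
    ContDiff ℝ ∞ (fun x => f x • α) := by
  have h : IsBoundedLinearMap ℝ (fun c : ℂ => c • α) :=
    { map_add := fun c d => add_smul c d α
      map_smul := fun c d => smul_assoc c d α
      bound := ⟨‖α‖ + 1, by positivity, fun c => by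
        rw [norm_smul, mul_comm]
        nlinarith [norm_nonneg c, norm_nonneg α]⟩ }
  exact h.contDiff.comp hf

/-- (A4) -/
theorem exists_form_one (b : ℕ → G → ℂ) (hb : ∀ i, b i ∈ Fn) (hz : ∀ i, 6 ≤ i → b i = 0) :
    ∃ β ∈ Ω 1, ∀ i x, β x ![X i x] = b i x := by
  let β : Form 1 := fun x => ∑ i : Fin 6, ∑ a : Fin 6, (b i x * (cf i a x : ℂ)) • dx1 a
  have hβ : ∀ x v, β x ![v] = ∑ i : Fin 6, b i x * (E x i v : ℂ) := by
    intro x v
    show (∑ i : Fin 6, ∑ a : Fin 6, (b i x * (cf i a x : ℂ)) • dx1 a) ![v] = _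
    rw [ContinuousAlternatingMap.sum_apply]
    refine Finset.sum_congr rfl fun i _ => ?_
    rw [ContinuousAlternatingMap.sum_apply, E]
    push_cast
    rw [Finset.mul_sum]
    refine Finset.sum_congr rfl fun a _ => ?_
    rw [ContinuousAlternatingMap.smul_apply, dx1_apply, smul_eq_mul]
    simp only [Matrix.cons_val_zero]
    ring
  refine ⟨β, ⟨?_, ?_⟩, ?_⟩
  · refine ContDiff.sum fun i _ => ContDiff.sum fun a _ => ?_
    exact contDiff_smul_const ((hb i).1.mul (Complex.ofRealCLM.contDiff.comp (cf_contDiff i a))) _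
  · intro γ hγ x
    rw [fderiv_mul]
    refine form_one_ext (x := x) fun i => ?_
    rw [comp_apply_one, hβ, hβ]
    refine Finset.sum_congr rfl fun k _ => ?_
    rw [E_dmul, (hb k).2 γ hγ]
  · intro i x
    rw [hβ]
    rcases Nat.lt_or_ge i 6 with hi | hi
    · have h : ∀ k : Fin 6, (E x k (X i x) : ℂ) = if k = ⟨i, hi⟩ then 1 else 0 := fun k => by
        rw [show E x k (X i x) = _ from E_X x k ⟨i, hi⟩]
        split_ifs <;> simp
      simp [h]
    · rw [X_of_six hi, hz i hi]
      simp [E]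

/-- (A5), together with a formula for the form. -/
theorem exists_form_two' (c : ℕ → ℕ → ℂ) (hanti : ∀ i j, c i j = -c j i)
    (hz : ∀ i j, 6 ≤ j → c i j = 0)
    (hc : ∀ j k, 1 ≤ j → 1 ≤ k → c (j + 1) k + c j (k + 1) = 0) :
    ∃ α ∈ Z2, (∀ i j x, α x ![X i x, X j x] = c i j) ∧
      ∀ x u v, α x ![u, v] = ∑ i : Fin 6, ∑ j : Fin 6, c i j * (E x i u : ℂ) * (E x j v : ℂ) := by
  let α : Form 2 := fun x => ∑ i : Fin 6, ∑ j : Fin 6, ∑ a : Fin 6, ∑ b : Fin 6,
    (c i j / 2 * ((cf i a x : ℂ) * (cf j b x : ℂ))) • dx2 a b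
  have hα : ∀ x u v, α x ![u, v]
      = ∑ i : Fin 6, ∑ j : Fin 6, c i j * (E x i u : ℂ) * (E x j v : ℂ) := by
    intro x u v
    have h1 : α x ![u, v] = ∑ i : Fin 6, ∑ j : Fin 6, c i j / 2 *
        ((E x i u : ℂ) * (E x j v : ℂ) - (E x i v : ℂ) * (E x j u : ℂ)) := by
      show (∑ i : Fin 6, ∑ j : Fin 6, ∑ a : Fin 6, ∑ b : Fin 6,
        (c i j / 2 * ((cf i a x : ℂ) * (cf j b x : ℂ))) • dx2 a b) ![u, v] = _
      rw [ContinuousAlternatingMap.sum_apply]
      refine Finset.sum_congr rfl fun i _ => ?_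
      rw [ContinuousAlternatingMap.sum_apply]
      refine Finset.sum_congr rfl fun j _ => ?_
      rw [ContinuousAlternatingMap.sum_apply]
      unfold E
      push_cast
      rw [Finset.sum_mul_sum, Finset.sum_mul_sum, ← Finset.sum_sub_distrib, Finset.mul_sum]
      refine Finset.sum_congr rfl fun a _ => ?_
      rw [ContinuousAlternatingMap.sum_apply, ← Finset.sum_sub_distrib, Finset.mul_sum]
      refine Finset.sum_congr rfl fun b _ => ?_
      rw [ContinuousAlternatingMap.smul_apply, dx2_apply, smul_eq_mul]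
      simp only [Matrix.cons_val_zero, Matrix.cons_val_one]
      ring
    rw [h1]
    have h2 : ∑ i : Fin 6, ∑ j : Fin 6, c i j / 2 *
        ((E x i u : ℂ) * (E x j v : ℂ) - (E x i v : ℂ) * (E x j u : ℂ))
        = ∑ i : Fin 6, ∑ j : Fin 6, c i j / 2 * (E x i u : ℂ) * (E x j v : ℂ)
          - ∑ i : Fin 6, ∑ j : Fin 6, c i j / 2 * (E x i v : ℂ) * (E x j u : ℂ) := by
      rw [← Finset.sum_sub_distrib]
      refine Finset.sum_congr rfl fun i _ => ?_
      rw [← Finset.sum_sub_distrib]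
      refine Finset.sum_congr rfl fun j _ => ?_
      ring
    rw [h2, Finset.sum_comm (f := fun i j : Fin 6 => c i j / 2 * (E x i v : ℂ) * (E x j u : ℂ)),
      ← Finset.sum_sub_distrib]
    refine Finset.sum_congr rfl fun i _ => ?_
    rw [← Finset.sum_sub_distrib]
    refine Finset.sum_congr rfl fun j _ => ?_
    rw [hanti j i]
    ring
  have hX : ∀ i j x, α x ![X i x, X j x] = c i j := by
    intro i j x
    rw [hα]
    rcases Nat.lt_or_ge i 6 with hi | hi
    · rcases Nat.lt_or_ge j 6 with hj | hj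
      · have h : ∀ k : Fin 6, (E x k (X i x) : ℂ) = if k = ⟨i, hi⟩ then 1 else 0 := fun k => by
          rw [show E x k (X i x) = _ from E_X x k ⟨i, hi⟩]
          split_ifs <;> simp
        have h' : ∀ k : Fin 6, (E x k (X j x) : ℂ) = if k = ⟨j, hj⟩ then 1 else 0 := fun k => by
          rw [show E x k (X j x) = _ from E_X x k ⟨j, hj⟩]
          split_ifs <;> simp
        simp [h, h']
      · rw [X_of_six hj, hz i j hj]
        simp [E]
    · rw [X_of_six hi, hanti, hz j i hi]
      simp [E]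
  have hmem : α ∈ Ω 2 := by
    refine ⟨?_, ?_⟩
    · refine ContDiff.sum fun i _ => ContDiff.sum fun j _ => ContDiff.sum fun a _ =>
        ContDiff.sum fun b _ => ?_
      refine contDiff_smul_const (contDiff_const.mul ?_) _
      exact (Complex.ofRealCLM.contDiff.comp (cf_contDiff i a)).mul
        (Complex.ofRealCLM.contDiff.comp (cf_contDiff j b))
    · intro γ hγ x
      rw [fderiv_mul]
      refine form_two_ext (x := x) fun i j => ?_
      rw [comp_apply_two, hα, hα]
      refine Finset.sum_congr rfl fun k _ => Finset.sum_congr rfl fun l _ => ?_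
      rw [E_dmul, E_dmul]
  refine ⟨α, ⟨hmem, ?_⟩, hX, hα⟩
  funext x
  refine form_three_ext (x := x) fun i j k => ?_
  rw [extDeriv_two (hmem.1.differentiable (by simp))]
  have hD : ∀ i j k, D i (fun y => α y ![X j y, X k y]) x = 0 := by
    intro i j k
    have : (fun y => α y ![X j y, X k y]) = fun _ => c j k := funext fun y => hX j k y
    rw [this, D]
    simp
  rw [hD, hD, hD]
  have hbr : ∀ i j k, α x ![br i j x, X k x] = if i = 0 then (if j = 0 then 0 else -c (j + 1) k)
      else (if j = 0 then c (i + 1) k else 0) := by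
    intro i j k
    unfold br
    by_cases hi : i = 0 <;> by_cases hj : j = 0 <;> simp only [hi, hj, if_true, if_false]
    · exact map_zero_left _ _
    · rw [map_neg_left, hX]
    · exact hX _ _ _
    · exact map_zero_left _ _
  rw [hbr, hbr, hbr]
  show _ = (0 : ℂ)
  by_cases hi : i = 0 <;> by_cases hj : j = 0 <;> by_cases hk : k = 0 <;>
    simp only [hi, hj, hk, if_true, if_false]
  · ring
  · ring
  · ring
  · have h1 := hc j k (by omega) (by omega)
    have h2 := hanti j (k + 1)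
    linear_combination h1 - h2
  · ring
  · have h1 := hc i k (by omega) (by omega)
    have h2 := hanti i (k + 1)
    linear_combination -h1 + h2
  · have h1 := hc i j (by omega) (by omega)
    have h2 := hanti i (j + 1)
    linear_combination h1 - h2
  · ring

/-- (A5) -/
theorem exists_form_two (c : ℕ → ℕ → ℂ) (hanti : ∀ i j, c i j = -c j i)
    (hz : ∀ i j, 6 ≤ j → c i j = 0)
    (hc : ∀ j k, 1 ≤ j → 1 ≤ k → c (j + 1) k + c j (k + 1) = 0) :
    ∃ α ∈ Z2, ∀ i j x, α x ![X i x, X j x] = c i j := by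
  obtain ⟨α, h1, h2, -⟩ := exists_form_two' c hanti hz hc
  exact ⟨α, h1, h2⟩

/-- (A7) -/
theorem extDeriv_mem {β : Form 1} (hβ : β ∈ Ω 1) : extDeriv β ∈ Z2 := by
  have hd : Differentiable ℝ β := hβ.1.differentiable (by simp)
  refine ⟨⟨?_, ?_⟩, ?_⟩
  · have h1 : ContDiff ℝ ∞ (fderiv ℝ β) := hβ.1.fderiv_right (by simp)
    exact (ContinuousAlternatingMap.alternatizeUncurryFinCLM ℝ G ℂ).contDiff.comp h1
  · intro γ hγ x
    have h := extDeriv_pullback (x := x) (r := 2) (f := mul γ) (hd (mul γ x))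
      ((mul_contDiff γ).contDiffAt.of_le (by norm_cast)) (by simp)
    rw [← h]
    have h2 : (fun x => (β (mul γ x)).compContinuousLinearMap (fderiv ℝ (mul γ) x)) = β :=
      funext fun x => hβ.2 γ hγ x
    rw [h2]
  · exact extDeriv_extDeriv (r := ∞) hβ.1 (by simp; norm_cast)

/-- The constant coefficients of the symplectic form. -/
noncomputable def cω (i j : ℕ) : ℂ :=
  if i = 0 ∧ j = 5 then 1 else if i = 5 ∧ j = 0 then -1
  else if i = 2 ∧ j = 3 then 1 else if i = 3 ∧ j = 2 then -1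
  else if i = 1 ∧ j = 4 then -1 else if i = 4 ∧ j = 1 then 1 else 0

lemma cω_anti (i j : ℕ) : cω i j = -cω j i := by
  unfold cω
  split_ifs <;> first | omega | simp

lemma cω_zero (i j : ℕ) (hj : 6 ≤ j) : cω i j = 0 := by
  unfold cω
  split_ifs <;> first | omega | simp

lemma cω_closed (j k : ℕ) (hj : 1 ≤ j) (hk : 1 ≤ k) : cω (j + 1) k + cω j (k + 1) = 0 := by
  unfold cω
  split_ifs <;> first | omega | (simp; done) | simp_all

/-- (A8) the symplectic form: a closed real nondegenerate two-form with constant coefficients. -/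
theorem omega_nondeg : ∃ α ∈ Z2, (∀ i j x, α x ![X i x, X j x] = cω i j) ∧
    (∀ x (v : Fin 2 → G), (α x v).im = 0) ∧
    ∀ x (v : G), (∀ w : G, α x ![v, w] = 0) → v = 0 := by
  obtain ⟨α, h1, h2, h3⟩ := exists_form_two' cω cω_anti cω_zero cω_closed
  have hre : ∀ i j, (cω i j).im = 0 := by
    intro i j
    unfold cω
    split_ifs <;> simp
  refine ⟨α, h1, h2, ?_, ?_⟩
  · intro x v
    have hv : v = ![v 0, v 1] := by
      funext i
      fin_cases i <;> rfl
    rw [hv, h3, Complex.im_sum]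
    refine Finset.sum_eq_zero fun i _ => ?_
    rw [Complex.im_sum]
    refine Finset.sum_eq_zero fun j _ => ?_
    simp [Complex.mul_im, hre]
  · intro x v hv
    have key : ∀ k : Fin 6, (∑ i : Fin 6, cω i k * (E x i v : ℂ)) = 0 := by
      intro k
      have := hv (X k x)
      rw [h3] at this
      rw [← this]
      refine Finset.sum_congr rfl fun i _ => ?_
      have hE : ∀ j : Fin 6, (E x j (X k x) : ℂ) = if j = k then 1 else 0 := fun j => by
        rw [E_X x j k]
        split_ifs <;> simp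
      simp [hE]
    have k0 := key 0
    have k1 := key 1
    have k2 := key 2
    have k3 := key 3
    have k4 := key 4
    have k5 := key 5
    simp [Fin.sum_univ_six, cω] at k0 k1 k2 k3 k4 k5
    rw [← sum_E_X x v, Fin.sum_univ_six]
    simp [k0, k1, k2, k3, k4, k5]

end Pool.Agent.H95.GWNil
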