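import Pool.Agent.H64.GW.Nil.Frame

/-!
# Basic facts on the left invariant frame
-/

open scoped ContDiff
open MeasureTheory

namespace Pool.Agent.H95.GWNil

open Pool.Agent.H64.GW.Nil

lemma X_zero (x : G) : X 0 x = Pi.single 0 1 := by
  funext j
  simp only [X, if_true, Pi.single_apply]

lemma X_of_six {k : ℕ} (hk : 6 ≤ k) (x : G) : X k x = 0 := by
  funext j
  have hj : (j : ℕ) < 6 := j.2
  simp only [X, Pi.zero_apply]
  rw [if_neg (by omega), if_neg (by omega)]

lemma X_apply_zero {k : ℕ} (hk : 1 ≤ k) (x : G) : X k x 0 = 0 := by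
  simp only [X]
  rw [if_neg (by omega), if_neg (by simp; omega)]

lemma X_contDiff (k : ℕ) : ContDiff ℝ ∞ (X k) := by
  rw [contDiff_pi]
  intro j
  by_cases hk : k = 0
  · subst hk
    simp only [X, if_true]
    exact contDiff_const
  · by_cases hj : k ≤ (j : ℕ)
    · simp only [X, if_neg hk, if_pos hj]
      have h0 : ContDiff ℝ ∞ (fun x : G => x 0) := contDiff_apply ℝ ℝ 0
      exact (h0.neg.pow _).div_const _
    · simp only [X, if_neg hk, if_neg hj]
      exact contDiff_const

lemma X_differentiable (k : ℕ) : Differentiable ℝ (X k) :=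
  (X_contDiff k).differentiable (by simp)

/-- The linear part of left multiplication by `g`. -/
noncomputable def dmul (g : G) : G →L[ℝ] G :=
  LinearMap.toContinuousLinearMap
    { toFun := fun v => ![v 0, v 1, v 2 - g 0 * v 1,
        v 3 - g 0 * v 2 + g 0 ^ 2 / 2 * v 1,
        v 4 - g 0 * v 3 + g 0 ^ 2 / 2 * v 2 - g 0 ^ 3 / 6 * v 1,
        v 5 - g 0 * v 4 + g 0 ^ 2 / 2 * v 3 - g 0 ^ 3 / 6 * v 2 + g 0 ^ 4 / 24 * v 1]
      map_add' := by
        intro u v
        funext j
        fin_cases j <;> simp <;> ring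
      map_smul' := by
        intro c v
        funext j
        fin_cases j <;> simp <;> ring }

lemma dmul_apply (g v : G) : dmul g v = ![v 0, v 1, v 2 - g 0 * v 1,
        v 3 - g 0 * v 2 + g 0 ^ 2 / 2 * v 1,
        v 4 - g 0 * v 3 + g 0 ^ 2 / 2 * v 2 - g 0 ^ 3 / 6 * v 1,
        v 5 - g 0 * v 4 + g 0 ^ 2 / 2 * v 3 - g 0 ^ 3 / 6 * v 2 + g 0 ^ 4 / 24 * v 1] := rfl

lemma mul_eq (g h : G) : mul g h = g + dmul g h := by
  rw [dmul_apply]
  funext j
  fin_cases j <;> simp [mul]

lemma hasFDerivAt_mul (g x : G) : HasFDerivAt (mul g) (dmul g) x := by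
  have h : mul g = fun h => g + dmul g h := funext (mul_eq g)
  rw [h]
  exact (dmul g).hasFDerivAt.const_add g

lemma fderiv_mul (g x : G) : fderiv ℝ (mul g) x = dmul g := (hasFDerivAt_mul g x).fderiv

lemma mul_contDiff (g : G) : ContDiff ℝ ∞ (mul g) := by
  have h : mul g = fun h => g + dmul g h := funext (mul_eq g)
  rw [h]
  exact contDiff_const.add (dmul g).contDiff

/-- The frame is left invariant. -/
lemma dmul_X (g x : G) (k : ℕ) : dmul g (X k x) = X k (mul g x) := by
  rcases Nat.lt_or_ge k 6 with hk | hk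
  · interval_cases k
    all_goals
      rw [dmul_apply]
      funext j
      fin_cases j <;> simp [X, mul, Nat.factorial] <;> ring
  · rw [X_of_six hk, X_of_six hk, map_zero]

/-- The derivative of `X k` as a vector field. -/
lemma fderiv_X_apply (k : ℕ) (x v : G) (j : Fin 6) :
    fderiv ℝ (X k) x v j = fderiv ℝ (fun y : G => X k y j) x v := by
  have h := (hasFDerivAt_pi'.1 (X_differentiable k x).hasFDerivAt) j
  rw [h.fderiv]
  rfl

lemma fderiv_X (k : ℕ) (hk : 1 ≤ k) (x v : G) :
    fderiv ℝ (X k) x v = (-v 0) • X (k + 1) x := by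
  funext j
  rw [fderiv_X_apply]
  have hk0 : k ≠ 0 := by omega
  rcases lt_trichotomy k (j : ℕ) with hj | hj | hj
  · have h0 : HasFDerivAt (fun y : G => -y 0) (-(ContinuousLinearMap.proj (R := ℝ) (φ := fun _ : Fin 6 => ℝ) 0)) x :=
      (hasFDerivAt_apply 0 x).neg
    have h1 := (h0.pow ((j : ℕ) - k)).mul_const (((((j : ℕ) - k).factorial : ℕ) : ℝ)⁻¹)
    have h2 : (fun y : G => X k y j) = fun y : G => (-y 0) ^ ((j : ℕ) - k) * ((((j : ℕ) - k).factorial : ℕ) : ℝ)⁻¹ := by
      funext y
      simp only [X, if_neg hk0, if_pos hj.le, div_eq_mul_inv]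
    rw [h2, h1.fderiv]
    obtain ⟨m, hm⟩ : ∃ m, (j : ℕ) - k = m + 1 := ⟨(j : ℕ) - k - 1, by omega⟩
    have hm' : (j : ℕ) - (k + 1) = m := by omega
    simp only [X, Pi.smul_apply, smul_eq_mul, if_neg (Nat.succ_ne_zero k), hm, hm',
      smul_apply, neg_apply, ContinuousLinearMap.proj_apply]
    rw [if_pos (by omega), Nat.factorial_succ]
    have h3 : ((m.factorial : ℕ) : ℝ) ≠ 0 := by positivity
    push_cast
    have h4 : ((m : ℝ) + 1) ≠ 0 := by positivity
    simp
    field_simp
  · have h2 : (fun y : G => X k y j) = fun y : G => (1 : ℝ) := by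
      funext y
      simp only [X, if_neg hk0, if_pos hj.le, hj, Nat.sub_self, pow_zero, Nat.factorial_zero,
        Nat.cast_one, div_one]
      simp
    rw [h2]
    simp only [X, Pi.smul_apply, smul_eq_mul, if_neg (Nat.succ_ne_zero k)]
    rw [if_neg (by omega)]
    simp
  · have h2 : (fun y : G => X k y j) = fun y : G => (0 : ℝ) := by
      funext y
      simp only [X, if_neg hk0, if_neg (not_le.2 hj)]
    rw [h2]
    simp only [X, Pi.smul_apply, smul_eq_mul, if_neg (Nat.succ_ne_zero k)]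
    rw [if_neg (by omega)]
    simp

lemma fderiv_X_zero (x v : G) : fderiv ℝ (X 0) x v = 0 := by
  have h : X 0 = fun _ : G => (Pi.single 0 1 : G) := funext X_zero
  rw [h]
  simp

open VectorField in
lemma bracket_zero_pos {k : ℕ} (hk : 1 ≤ k) (x : G) :
    lieBracket ℝ (X 0) (X k) x = -X (k + 1) x := by
  rw [lieBracket, fderiv_X_zero, fderiv_X k hk, X_zero]
  simp

open VectorField in
lemma bracket_pos_zero {k : ℕ} (hk : 1 ≤ k) (x : G) :
    lieBracket ℝ (X k) (X 0) x = X (k + 1) x := by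
  rw [lieBracket, fderiv_X_zero, fderiv_X k hk, X_zero]
  simp

open VectorField in
lemma bracket_pos_pos {j k : ℕ} (hj : 1 ≤ j) (hk : 1 ≤ k) (x : G) :
    lieBracket ℝ (X j) (X k) x = 0 := by
  rw [lieBracket, fderiv_X k hk, fderiv_X j hj, X_apply_zero hj, X_apply_zero hk]
  simp

open VectorField in
lemma bracket_zero_zero (x : G) : lieBracket ℝ (X 0) (X 0) x = 0 := by
  simp [lieBracket]

end Pool.Agent.H95.GWNil
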