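import Pool.Agent.H95.GWNil.Basic

/-!
# The coefficients of a form with respect to the frame
-/

open scoped ContDiff
open MeasureTheory

namespace Pool.Agent.H95.GWNil

open Pool.Agent.H64.GW.Nil

lemma contDiff_curryLeft (n : ℕ) :
    ContDiff ℝ ∞ (fun f : G [⋀^Fin (n + 1)]→L[ℝ] ℂ => f.curryLeft) :=
  IsBoundedLinearMap.contDiff
    { map_add := fun _ _ => rfl
      map_smul := fun _ _ => rfl
      bound := ⟨1, one_pos, fun f => by rw [one_mul]; exact f.norm_curryLeft.le⟩ }

/-- Evaluation of a smooth two-form at smooth vector fields is smooth. -/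
lemma contDiff_apply_two {α : Form 2} (hα : ContDiff ℝ ∞ α) {u v : G → G}
    (hu : ContDiff ℝ ∞ u) (hv : ContDiff ℝ ∞ v) :
    ContDiff ℝ ∞ (fun x => α x ![u x, v x]) := by
  have h1 : ContDiff ℝ ∞ (fun x => (α x).curryLeft) :=
    (contDiff_curryLeft 1).comp hα
  have h2 : ContDiff ℝ ∞ (fun x => (α x).curryLeft (u x)) := h1.clm_apply hu
  have h3 : ContDiff ℝ ∞ (fun x => ((α x).curryLeft (u x)).curryLeft) :=
    (contDiff_curryLeft 0).comp h2
  have h4 : ContDiff ℝ ∞ (fun x => ((α x).curryLeft (u x)).curryLeft (v x)) := h3.clm_apply hv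
  exact (ContinuousAlternatingMap.apply ℝ G ℂ ![]).contDiff.comp h4

/-- Evaluation of a smooth one-form at a smooth vector field is smooth. -/
lemma contDiff_apply_one {α : Form 1} (hα : ContDiff ℝ ∞ α) {v : G → G}
    (hv : ContDiff ℝ ∞ v) :
    ContDiff ℝ ∞ (fun x => α x ![v x]) := by
  have h3 : ContDiff ℝ ∞ (fun x => (α x).curryLeft) :=
    (contDiff_curryLeft 0).comp hα
  have h4 : ContDiff ℝ ∞ (fun x => (α x).curryLeft (v x)) := h3.clm_apply hv
  exact (ContinuousAlternatingMap.apply ℝ G ℂ ![]).contDiff.comp h4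

lemma comp_apply_two (f : G [⋀^Fin 2]→L[ℝ] ℂ) (L : G →L[ℝ] G) (u v : G) :
    f.compContinuousLinearMap L ![u, v] = f ![L u, L v] := by
  rw [ContinuousAlternatingMap.compContinuousLinearMap_apply]
  congr 1
  funext i
  fin_cases i <;> rfl

lemma comp_apply_one (f : G [⋀^Fin 1]→L[ℝ] ℂ) (L : G →L[ℝ] G) (u : G) :
    f.compContinuousLinearMap L ![u] = f ![L u] := by
  rw [ContinuousAlternatingMap.compContinuousLinearMap_apply]
  congr 1
  funext i
  fin_cases i
  rfl

/-- The coefficients of an invariant two-form are functions on `V`. -/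
lemma coef_two {α : Form 2} (hα : α ∈ Ω 2) (i j : ℕ) :
    (fun x => α x ![X i x, X j x]) ∈ Fn := by
  refine ⟨contDiff_apply_two hα.1 (X_contDiff i) (X_contDiff j), fun γ hγ x => ?_⟩
  have h := hα.2 γ hγ x
  show α (mul γ x) ![X i (mul γ x), X j (mul γ x)] = α x ![X i x, X j x]
  rw [← h, fderiv_mul, comp_apply_two, dmul_X, dmul_X]

/-- The coefficients of an invariant one-form are functions on `V`. -/
theorem coef_one {β : Form 1} (hβ : β ∈ Ω 1) (i : ℕ) : (fun x => β x ![X i x]) ∈ Fn := by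
  refine ⟨contDiff_apply_one hβ.1 (X_contDiff i), fun γ hγ x => ?_⟩
  have h := hβ.2 γ hγ x
  show β (mul γ x) ![X i (mul γ x)] = β x ![X i x]
  rw [← h, fderiv_mul, comp_apply_one, dmul_X]

/-- Additivity in the first slot etc.: the two-form as a bilinear map. -/
lemma map_neg_left (f : G [⋀^Fin 2]→L[ℝ] ℂ) (u v : G) : f ![-u, v] = -f ![u, v] := by
  have := (f.curryLeft).map_neg u
  exact congrArg (fun g : G [⋀^Fin 1]→L[ℝ] ℂ => g ![v]) this

lemma map_zero_left (f : G [⋀^Fin 2]→L[ℝ] ℂ) (v : G) : f ![0, v] = 0 :=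
  f.map_coord_zero 0 rfl

lemma map_zero_right (f : G [⋀^Fin 2]→L[ℝ] ℂ) (v : G) : f ![v, 0] = 0 :=
  f.map_coord_zero 1 rfl

lemma map_swap_two (f : G [⋀^Fin 2]→L[ℝ] ℂ) (u v : G) : f ![u, v] = -f ![v, u] := by
  have h := f.toAlternatingMap.map_swap ![u, v] (i := 0) (j := 1) (by decide)
  have h2 : (![u, v] ∘ ⇑(Equiv.swap (0 : Fin 2) 1)) = ![v, u] := by
    funext i
    fin_cases i <;> simp
  rw [h2] at h
  have h3 : f ![v, u] = -f ![u, v] := h
  rw [h3, neg_neg]

lemma map_neg_one (f : G [⋀^Fin 1]→L[ℝ] ℂ) (u : G) : f ![-u] = -f ![u] := by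
  have := (f.curryLeft).map_neg u
  exact congrArg (fun g : G [⋀^Fin 0]→L[ℝ] ℂ => g ![]) this

/-- The structure constants of the frame: `[X i, X j] = br i j`. -/
noncomputable def br (i j : ℕ) (x : G) : G :=
  if i = 0 then (if j = 0 then 0 else -X (j + 1) x)
  else (if j = 0 then X (i + 1) x else 0)

open VectorField in
lemma bracket_eq (i j : ℕ) (x : G) : lieBracket ℝ (X i) (X j) x = br i j x := by
  unfold br
  by_cases hi : i = 0 <;> by_cases hj : j = 0
  · subst hi hj
    simp [bracket_zero_zero]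
  · subst hi
    rw [if_pos rfl, if_neg hj, bracket_zero_pos (by omega)]
  · subst hj
    rw [if_neg hi, if_pos rfl, bracket_pos_zero (by omega)]
  · rw [if_neg hi, if_neg hj, bracket_pos_pos (by omega) (by omega)]

lemma sum_form_one (f : Fin 2 → ℂ) (g : Fin 1 → Fin 1 → ℂ) :
    (∑ i : Fin (0 + 2), (-1) ^ i.val • f i) - ∑ i : Fin (0 + 1), ∑ j ≥ i,
      (-1) ^ (i + j : ℕ) • g i j = f 0 - f 1 - g 0 0 := by
  have e4 : (Finset.Ici (0 : Fin 1)) = {0} := by decide
  have s1 : (∑ i : Fin (0 + 2), (-1 : ℤ) ^ i.val • f i) = f 0 - f 1 := by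
    refine (Fin.sum_univ_two (fun i : Fin 2 => (-1 : ℤ) ^ i.val • f i)).trans ?_
    simp
    ring
  have s2 : (∑ i : Fin (0 + 1), ∑ j ≥ i, (-1 : ℤ) ^ (i + j : ℕ) • g i j) = g 0 0 := by
    refine (Fin.sum_univ_one (fun i : Fin 1 => ∑ j ≥ i, (-1 : ℤ) ^ (i + j : ℕ) • g i j)).trans ?_
    rw [e4]
    simp
  rw [s1, s2]

lemma sum_form_two (f : Fin 3 → ℂ) (g : Fin 2 → Fin 2 → ℂ) :
    (∑ i : Fin (1 + 2), (-1) ^ i.val • f i) - ∑ i : Fin (1 + 1), ∑ j ≥ i,
      (-1) ^ (i + j : ℕ) • g i j = f 0 - f 1 + f 2 - g 0 0 + g 0 1 - g 1 1 := by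
  have e4 : (Finset.Ici (0 : Fin 2)) = {0, 1} := by decide
  have e4' : (Finset.Ici (1 : Fin 2)) = {1} := by decide
  have s1 : (∑ i : Fin (1 + 2), (-1 : ℤ) ^ i.val • f i) = f 0 - f 1 + f 2 := by
    refine (Fin.sum_univ_three (fun i : Fin 3 => (-1 : ℤ) ^ i.val • f i)).trans ?_
    simp
    ring
  have s2 : (∑ i : Fin (1 + 1), ∑ j ≥ i, (-1 : ℤ) ^ (i + j : ℕ) • g i j)
      = g 0 0 - g 0 1 + g 1 1 := by
    refine (Fin.sum_univ_two (fun i : Fin 2 => ∑ j ≥ i, (-1 : ℤ) ^ (i + j : ℕ) • g i j)).trans ?_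
    rw [e4, e4', Finset.sum_pair (by decide)]
    simp
    ring
  rw [s1, s2]
  ring

/-- The exterior derivative of a one-form on the frame. -/
lemma extDeriv_one {β : Form 1} (hβ : Differentiable ℝ β) (i j : ℕ) (x : G) :
    extDeriv β x ![X i x, X j x] = D i (fun y => β y ![X j y]) x - D j (fun y => β y ![X i y]) x
      - β x ![br i j x] := by
  have hV : ∀ k : Fin 2, DifferentiableAt ℝ ((![X i, X j] : Fin 2 → G → G) k) x := by
    intro k
    fin_cases k
    · exact X_differentiable i x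
    · exact X_differentiable j x
  have h := extDeriv_apply_vectorField (n := 0) (V := ![X i, X j]) (x := x) (hβ x) hV
  have e1 : (fun k => (![X i, X j] : Fin 2 → G → G) k x) = ![X i x, X j x] := by
    funext k
    fin_cases k <;> rfl
  rw [e1] at h
  rw [h]
  have e2 : ∀ y, ((0 : Fin 2).removeNth (fun k => (![X i, X j] : Fin 2 → G → G) k y)) = ![X j y] := by
    intro y
    funext k
    fin_cases k
    rfl
  have e3 : ∀ y, ((1 : Fin 2).removeNth (fun k => (![X i, X j] : Fin 2 → G → G) k y)) = ![X i y] := by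
    intro y
    funext k
    fin_cases k
    rfl
  have e5 : (Matrix.vecCons (VectorField.lieBracket ℝ ((![X i, X j] : Fin 2 → G → G) (Fin.castSucc 0))
      ((![X i, X j] : Fin 2 → G → G) (Fin.succ 0)) x)
      ((0 : Fin 1).removeNth ((Fin.castSucc (0 : Fin 1)).removeNth
        ![X i x, X j x]))) = ![br i j x] := by
    funext k
    fin_cases k
    exact bracket_eq i j x
  refine (sum_form_one _ _).trans ?_
  rw [show (fun y => β y ((0 : Fin 2).removeNth (fun k => (![X i, X j] : Fin 2 → G → G) k y)))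
      = fun y => β y ![X j y] from funext fun y => by rw [e2],
    show (fun y => β y ((1 : Fin 2).removeNth (fun k => (![X i, X j] : Fin 2 → G → G) k y)))
      = fun y => β y ![X i y] from funext fun y => by rw [e3], e5]
  rfl

/-- The exterior derivative of a two-form on the frame. -/
lemma extDeriv_two {α : Form 2} (hα : Differentiable ℝ α) (i j k : ℕ) (x : G) :
    extDeriv α x ![X i x, X j x, X k x] = D i (fun y => α y ![X j y, X k y]) x
      - D j (fun y => α y ![X i y, X k y]) x + D k (fun y => α y ![X i y, X j y]) x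
      - α x ![br i j x, X k x] + α x ![br i k x, X j x] - α x ![br j k x, X i x] := by
  have hV : ∀ l : Fin 3, DifferentiableAt ℝ ((![X i, X j, X k] : Fin 3 → G → G) l) x := by
    intro l
    fin_cases l
    · exact X_differentiable i x
    · exact X_differentiable j x
    · exact X_differentiable k x
  have h := extDeriv_apply_vectorField (n := 1) (V := ![X i, X j, X k]) (x := x) (hα x) hV
  have e1 : (fun l => (![X i, X j, X k] : Fin 3 → G → G) l x) = ![X i x, X j x, X k x] := by
    funext l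
    fin_cases l <;> rfl
  rw [e1] at h
  rw [h]
  have e2 : ∀ y, ((0 : Fin 3).removeNth (fun l => (![X i, X j, X k] : Fin 3 → G → G) l y)) = ![X j y, X k y] := by
    intro y
    funext l
    fin_cases l <;> rfl
  have e3 : ∀ y, ((1 : Fin 3).removeNth (fun l => (![X i, X j, X k] : Fin 3 → G → G) l y)) = ![X i y, X k y] := by
    intro y
    funext l
    fin_cases l <;> rfl
  have e3' : ∀ y, ((2 : Fin 3).removeNth (fun l => (![X i, X j, X k] : Fin 3 → G → G) l y)) = ![X i y, X j y] := by
    intro y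
    funext l
    fin_cases l <;> rfl
  have e5 : (Matrix.vecCons (VectorField.lieBracket ℝ ((![X i, X j, X k] : Fin 3 → G → G) (Fin.castSucc 0))
      ((![X i, X j, X k] : Fin 3 → G → G) (Fin.succ 0)) x)
      ((0 : Fin 2).removeNth ((Fin.castSucc (0 : Fin 2)).removeNth
        ![X i x, X j x, X k x]))) = ![br i j x, X k x] := by
    funext l
    fin_cases l
    · exact bracket_eq i j x
    · rfl
  have e6 : (Matrix.vecCons (VectorField.lieBracket ℝ ((![X i, X j, X k] : Fin 3 → G → G) (Fin.castSucc 0))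
      ((![X i, X j, X k] : Fin 3 → G → G) (Fin.succ 1)) x)
      ((1 : Fin 2).removeNth ((Fin.castSucc (0 : Fin 2)).removeNth
        ![X i x, X j x, X k x]))) = ![br i k x, X j x] := by
    funext l
    fin_cases l
    · exact bracket_eq i k x
    · rfl
  have e7 : (Matrix.vecCons (VectorField.lieBracket ℝ ((![X i, X j, X k] : Fin 3 → G → G) (Fin.castSucc 1))
      ((![X i, X j, X k] : Fin 3 → G → G) (Fin.succ 1)) x)
      ((1 : Fin 2).removeNth ((Fin.castSucc (1 : Fin 2)).removeNth
        ![X i x, X j x, X k x]))) = ![br j k x, X i x] := by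
    funext l
    fin_cases l
    · exact bracket_eq j k x
    · rfl
  refine (sum_form_two _ _).trans ?_
  rw [show (fun y => α y ((0 : Fin 3).removeNth (fun l => (![X i, X j, X k] : Fin 3 → G → G) l y)))
      = fun y => α y ![X j y, X k y] from funext fun y => by rw [e2],
    show (fun y => α y ((1 : Fin 3).removeNth (fun l => (![X i, X j, X k] : Fin 3 → G → G) l y)))
      = fun y => α y ![X i y, X k y] from funext fun y => by rw [e3],
    show (fun y => α y ((2 : Fin 3).removeNth (fun l => (![X i, X j, X k] : Fin 3 → G → G) l y)))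
      = fun y => α y ![X i y, X j y] from funext fun y => by rw [e3'], e5, e6, e7]
  rfl

/-- (A3) -/
theorem coef_extDeriv {β : Form 1} (hβ : β ∈ Ω 1) (i j : ℕ) (x : G) :
    extDeriv β x ![X i x, X j x] = dd (fun i x => β x ![X i x]) i j x := by
  rw [extDeriv_one (hβ.1.differentiable (by simp))]
  unfold dd br
  by_cases hi : i = 0 <;> by_cases hj : j = 0
  · subst hi hj
    simp
    have : (![0] : Fin 1 → G) = 0 := by
      funext k
      fin_cases k
      rfl
    rw [this]
    simp
  · subst hi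
    rw [if_pos rfl, if_neg hj, map_neg_one]
    simp [hj, Nat.one_le_iff_ne_zero]
  · subst hj
    rw [if_neg hi, if_pos rfl]
    simp [hi, Nat.one_le_iff_ne_zero]
  · rw [if_neg hi, if_neg hj]
    have : (![0] : Fin 1 → G) = 0 := by
      funext k
      fin_cases k
      rfl
    rw [this]
    simp [hi, hj]

/-- (A1) -/
theorem coef_closed {α : Form 2} (hα : α ∈ Z2) : Closed (fun i j x => α x ![X i x, X j x]) where
  mem := fun i j => coef_two hα.1 i j
  anti := fun i j x => map_swap_two _ _ _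
  zero := by
    intro i j hj
    funext x
    show α x ![X i x, X j x] = 0
    rw [X_of_six hj, map_zero_right]
  closed₀ := by
    intro j k hj hk x
    have h := extDeriv_two (hα.1.1.differentiable (by simp)) 0 j k x
    rw [hα.2] at h
    have hj0 : j ≠ 0 := by omega
    have hk0 : k ≠ 0 := by omega
    simp only [br, if_true, if_neg hj0, if_neg hk0, map_neg_left, map_zero_left] at h
    have hsw := map_swap_two (α x) (X j x) (X (k + 1) x)
    have h0 : (0 : G → G [⋀^Fin 3]→L[ℝ] ℂ) x ![X 0 x, X j x, X k x] = 0 := rfl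
    rw [show (0 : G → G [⋀^Fin (2 + 1)]→L[ℝ] ℂ) x ![X 0 x, X j x, X k x] = 0 from rfl] at h
    show D 0 (fun x => α x ![X j x, X k x]) x - D j (fun x => α x ![X 0 x, X k x]) x
      + D k (fun x => α x ![X 0 x, X j x]) x + α x ![X (j + 1) x, X k x]
      + α x ![X j x, X (k + 1) x] = 0
    rw [hsw]
    linear_combination -h
  closed₁ := by
    intro i j k hi hj hk x
    have h := extDeriv_two (hα.1.1.differentiable (by simp)) i j k x
    rw [hα.2] at h
    have hi0 : i ≠ 0 := by omega
    have hj0 : j ≠ 0 := by omega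
    have hk0 : k ≠ 0 := by omega
    simp only [br, if_neg hi0, if_neg hj0, if_neg hk0, map_zero_left] at h
    rw [show (0 : G → G [⋀^Fin (2 + 1)]→L[ℝ] ℂ) x ![X i x, X j x, X k x] = 0 from rfl] at h
    show D i (fun x => α x ![X j x, X k x]) x - D j (fun x => α x ![X i x, X k x]) x
      + D k (fun x => α x ![X i x, X j x]) x = 0
    linear_combination -h

end Pool.Agent.H95.GWNil
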