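import Pool.Agent.H95.GWNil.Coef

/-!
# The dual coframe and the construction of forms from coefficients
-/

open scoped ContDiff
open MeasureTheory

namespace Pool.Agent.H95.GWNil

open Pool.Agent.H64.GW.Nil

/-- The components of the coframe: `e⁰ = dt`, `eᵏ = ∑_{1 ≤ j ≤ k} t ^ (k - j) / (k - j)! dxⱼ`. -/
noncomputable def cf (k j : Fin 6) (x : G) : ℝ :=
  if k = 0 then (if j = 0 then 1 else 0)
  else if j = 0 then 0
  else if j ≤ k then (x 0) ^ ((k : ℕ) - j) / ((k : ℕ) - j).factorial else 0

lemma cf_contDiff (k j : Fin 6) : ContDiff ℝ ∞ (cf k j) := by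
  unfold cf
  by_cases hk : k = 0
  · simp only [if_pos hk]
    exact contDiff_const
  · by_cases hj : j = 0
    · simp only [if_neg hk, if_pos hj]
      exact contDiff_const
    · by_cases hjk : j ≤ k
      · simp only [if_neg hk, if_neg hj, if_pos hjk]
        have h0 : ContDiff ℝ ∞ (fun x : G => x 0) := contDiff_apply ℝ ℝ 0
        exact (h0.pow _).div_const _
      · simp only [if_neg hk, if_neg hj, if_neg hjk]
        exact contDiff_const

/-- The coframe: `E x k v = eᵏ(x)(v)`. -/
noncomputable def E (x : G) (k : Fin 6) (v : G) : ℝ := ∑ j, cf k j x * v j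

lemma E_add (x : G) (k : Fin 6) (u v : G) : E x k (u + v) = E x k u + E x k v := by
  unfold E
  rw [← Finset.sum_add_distrib]
  refine Finset.sum_congr rfl fun j _ => ?_
  rw [Pi.add_apply, mul_add]

lemma E_smul (x : G) (k : Fin 6) (c : ℝ) (v : G) : E x k (c • v) = c * E x k v := by
  unfold E
  rw [Finset.mul_sum]
  refine Finset.sum_congr rfl fun j _ => ?_
  rw [Pi.smul_apply, smul_eq_mul]
  ring

/-- The coframe is dual to the frame. -/
lemma E_X (x : G) (k : Fin 6) (i : Fin 6) : E x k (X i x) = if k = i then 1 else 0 := by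
  unfold E cf X
  rw [Fin.sum_univ_six]
  fin_cases k <;> fin_cases i <;> simp [Nat.factorial] <;> ring

/-- The frame spans. -/
lemma sum_E_X (x v : G) : ∑ k : Fin 6, E x k v • X (k : ℕ) x = v := by
  funext l
  simp only [Finset.sum_apply, Pi.smul_apply, smul_eq_mul, Fin.sum_univ_six, E, cf, X]
  fin_cases l <;> simp [Nat.factorial] <;> ring

/-- The coframe is left invariant. -/
lemma E_dmul (g x v : G) (k : Fin 6) : E (mul g x) k (dmul g v) = E x k v := by
  conv_lhs => rw [← sum_E_X x v]
  rw [map_sum]
  simp only [map_smul, dmul_X]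
  have h : ∀ (s : Finset (Fin 6)), E (mul g x) k (∑ i ∈ s, E x i v • X (i : ℕ) (mul g x))
      = ∑ i ∈ s, E x i v * (if k = i then 1 else 0) := by
    intro s
    induction s using Finset.induction_on with
    | empty => simp [E]
    | insert a s ha ih => rw [Finset.sum_insert ha, Finset.sum_insert ha, E_add, ih, E_smul, E_X]
  rw [h]
  simp

/-- The linear equivalence given by the coframe. -/
noncomputable def coframe (x : G) : G ≃ₗ[ℝ] (Fin 6 → ℝ) where
  toFun v := fun k => E x k v
  map_add' u v := funext fun k => E_add x k u v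
  map_smul' c v := funext fun k => E_smul x k c v
  invFun c := ∑ k : Fin 6, c k • X (k : ℕ) x
  left_inv v := sum_E_X x v
  right_inv c := by
    funext k
    have h : ∀ (s : Finset (Fin 6)), E x k (∑ i ∈ s, c i • X (i : ℕ) x)
        = ∑ i ∈ s, c i * (if k = i then 1 else 0) := by
      intro s
      induction s using Finset.induction_on with
      | empty => simp [E]
      | insert a s ha ih => rw [Finset.sum_insert ha, Finset.sum_insert ha, E_add, ih, E_smul, E_X]
    show E x k (∑ i : Fin 6, c i • X (i : ℕ) x) = c k
    rw [h]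
    simp

/-- The frame as a basis. -/
noncomputable def frame (x : G) : Module.Basis (Fin 6) ℝ G := Module.Basis.ofEquivFun (coframe x)

lemma frame_apply (x : G) (i : Fin 6) : frame x i = X (i : ℕ) x := by
  unfold frame
  rw [Module.Basis.coe_ofEquivFun]
  show ∑ k : Fin 6, (Pi.single i (1 : ℝ) : Fin 6 → ℝ) k • X (k : ℕ) x = X (i : ℕ) x
  simp [Pi.single_apply]

/-- (A6) a two-form is determined by its values on the frame. -/
theorem form_two_ext {a b : G [⋀^Fin 2]→L[ℝ] ℂ} {x : G}
    (h : ∀ i j, a ![X i x, X j x] = b ![X i x, X j x]) : a = b := by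
  apply ContinuousAlternatingMap.toAlternatingMap_injective
  refine Module.Basis.ext_alternating (frame x) fun v _ => ?_
  have e : (fun i => frame x (v i)) = ![X (v 0) x, X (v 1) x] := by
    funext i
    fin_cases i <;> simp [frame_apply]
  rw [e]
  exact h _ _

/-- a one-form is determined by its values on the frame. -/
theorem form_one_ext {a b : G [⋀^Fin 1]→L[ℝ] ℂ} {x : G}
    (h : ∀ i, a ![X i x] = b ![X i x]) : a = b := by
  apply ContinuousAlternatingMap.toAlternatingMap_injective
  refine Module.Basis.ext_alternating (frame x) fun v _ => ?_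
  have e : (fun i => frame x (v i)) = ![X (v 0) x] := by
    funext i
    fin_cases i
    simp [frame_apply]
  rw [e]
  exact h _

/-- a three-form is determined by its values on the frame. -/
theorem form_three_ext {a b : G [⋀^Fin 3]→L[ℝ] ℂ} {x : G}
    (h : ∀ i j k, a ![X i x, X j x, X k x] = b ![X i x, X j x, X k x]) : a = b := by
  apply ContinuousAlternatingMap.toAlternatingMap_injective
  refine Module.Basis.ext_alternating (frame x) fun v _ => ?_
  have e : (fun i => frame x (v i)) = ![X (v 0) x, X (v 1) x, X (v 2) x] := by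
    funext i
    fin_cases i <;> simp [frame_apply]
  rw [e]
  exact h _ _ _

end Pool.Agent.H95.GWNil
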